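import Pool.Agent.W225.TD2.Stm

/-!
# Project TD2 (MP_303581_co), part REM: removal of a vertex and its neighbours
-/

set_option autoImplicit false

open Finset

namespace Pool.Agent.W130.TD2REM

open Pool.Agent.W225.TD2

open Classical in
noncomputable def ff {n : ℕ} (G : SimpleGraph (Fin n)) (x y : Fin n) : ℤ :=
  if G.Adj x y then 1 else 0

theorem ff_symm {n : ℕ} (G : SimpleGraph (Fin n)) (x y : Fin n) : ff G x y = ff G y x := by
  unfold ff
  by_cases h : G.Adj x y
  · rw [if_pos h, if_pos h.symm]
  · rw [if_neg h, if_neg (fun h' => h h'.symm)]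

theorem dg_eq {n : ℕ} (G : SimpleGraph (Fin n)) (U : Finset (Fin n)) (v : Fin n) :
    (dg G U v : ℤ) = ∑ y ∈ U, ff G v y := by
  classical
  unfold dg ff
  rw [Finset.card_filter]
  push_cast
  apply Finset.sum_congr rfl
  intro y _
  congr

theorem arcs_eq {n : ℕ} (G : SimpleGraph (Fin n)) (U : Finset (Fin n)) :
    (arcs G U : ℤ) = ∑ x ∈ U, ∑ y ∈ U, ff G x y := by
  classical
  unfold arcs ff
  rw [Finset.card_filter]
  push_cast
  rw [Fintype.sum_prod_type]
  have h1 : ∀ x : Fin n, (∑ y : Fin n, (if x ∈ U ∧ y ∈ U ∧ G.Adj x y then (1 : ℤ) else 0))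
      = if x ∈ U then ∑ y ∈ U, (if G.Adj x y then (1 : ℤ) else 0) else 0 := by
    intro x
    by_cases hx : x ∈ U
    · rw [if_pos hx]
      rw [← Finset.sum_filter_add_sum_filter_not Finset.univ (fun y => y ∈ U)]
      have e1 : (∑ y ∈ Finset.univ.filter (fun y => ¬ y ∈ U),
          (if x ∈ U ∧ y ∈ U ∧ G.Adj x y then (1 : ℤ) else 0)) = 0 := by
        apply Finset.sum_eq_zero
        intro y hy
        rw [Finset.mem_filter] at hy
        rw [if_neg]
        rintro ⟨_, h, _⟩
        exact hy.2 h
      rw [e1, add_zero]
      have e2 : Finset.univ.filter (fun y => y ∈ U) = U := by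
        ext y; simp
      rw [e2]
      apply Finset.sum_congr rfl
      intro y hy
      by_cases hxy : G.Adj x y
      · rw [if_pos ⟨hx, hy, hxy⟩, if_pos hxy]
      · rw [if_neg (fun h => hxy h.2.2), if_neg hxy]
    · rw [if_neg hx]
      apply Finset.sum_eq_zero
      intro y _
      rw [if_neg]
      rintro ⟨h, _⟩
      exact hx h
  calc (∑ x : Fin n, ∑ y : Fin n, (if (x, y).1 ∈ U ∧ (x, y).2 ∈ U ∧ G.Adj (x, y).1 (x, y).2
        then (1 : ℤ) else 0))
      = ∑ x : Fin n, (if x ∈ U then ∑ y ∈ U, (if G.Adj x y then (1 : ℤ) else 0) else 0) := by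
        apply Finset.sum_congr rfl
        intro x _
        exact h1 x
    _ = ∑ x ∈ U, ∑ y ∈ U, (if G.Adj x y then (1 : ℤ) else 0) := by
        rw [← Finset.sum_filter]
        congr 1
        ext y; simp

theorem rem_t : S_REM := by
  classical
  intro n G U a v hG hv hI
  have hnot : ∀ u, ¬ G.Adj u u := fun u => G.loopless.irrefl u
  have h1a : 1 ≤ a := by
    have := hI {v} (by intro x hx; rw [Finset.mem_singleton] at hx; rw [hx]; exact hv)
      (by
        intro u hu w hw
        rw [Finset.mem_singleton] at hu hw
        rw [hu, hw]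
        exact hnot v)
    simpa using this
  refine ⟨h1a, ?_, ?_⟩
  · intro I hIU hind
    have hvI : v ∉ I := by
      intro h
      have := hIU h
      unfold rem at this
      rw [Finset.mem_filter] at this
      exact this.2.1 rfl
    have hsub : insert v I ⊆ U := by
      intro x hx
      rw [Finset.mem_insert] at hx
      rcases hx with rfl | hx
      · exact hv
      · have := hIU hx
        unfold rem at this
        rw [Finset.mem_filter] at this
        exact this.1
    have hnv : ∀ u ∈ I, ¬ G.Adj v u := by
      intro u hu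
      have := hIU hu
      unfold rem at this
      rw [Finset.mem_filter] at this
      exact this.2.2
    have := hI (insert v I) hsub (by
      intro u hu w hw
      rw [Finset.mem_insert] at hu hw
      rcases hu with rfl | hu
      · rcases hw with rfl | hw
        · exact hnot _
        · exact hnv w hw
      · rcases hw with rfl | hw
        · intro h; exact hnv u hu h.symm
        · exact hind u hu w hw)
    rw [Finset.card_insert_of_notMem hvI] at this
    omega
  · set N := U.filter (fun u => G.Adj v u) with hN
    have hvN : v ∉ N := by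
      intro h
      rw [hN, Finset.mem_filter] at h
      exact hnot v h.2
    have hindN : ∀ x ∈ N, ∀ y ∈ N, ¬ G.Adj x y := by
      intro x hx y hy hxy
      rw [hN, Finset.mem_filter] at hx hy
      have h3 : G.IsNClique 3 {v, x, y} := by
        rw [SimpleGraph.is3Clique_triple_iff]
        exact ⟨hx.2, hy.2, hxy⟩
      exact hG _ h3
    set R := U.filter (fun u => u = v ∨ G.Adj v u) with hR
    have hRins : R = insert v N := by
      ext u
      rw [hR, hN, Finset.mem_filter, Finset.mem_insert, Finset.mem_filter]
      constructor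
      · rintro ⟨hu, h | h⟩
        · exact Or.inl h
        · exact Or.inr ⟨hu, h⟩
      · rintro (rfl | ⟨hu, h⟩)
        · exact ⟨hv, Or.inl rfl⟩
        · exact ⟨hu, Or.inr h⟩
    have hrem : rem G U v = U.filter (fun u => ¬ (u = v ∨ G.Adj v u)) := by
      unfold rem
      apply Finset.filter_congr
      intro u _
      rw [not_or]
    have hsplit : ∀ g : Fin n → ℤ, ∑ u ∈ U, g u = ∑ u ∈ R, g u + ∑ u ∈ rem G U v, g u := by
      intro g
      rw [hrem, hR]
      exact (Finset.sum_filter_add_sum_filter_not U _ g).symm
    have hRsum : ∀ g : Fin n → ℤ, ∑ u ∈ R, g u = g v + ∑ u ∈ N, g u := by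
      intro g
      rw [hRins, Finset.sum_insert hvN]
    have hcard : U.card = (rem G U v).card + dg G U v + 1 := by
      have h1 := Finset.card_filter_add_card_filter_not (s := U) (fun u => u = v ∨ G.Adj v u)
      rw [← hrem, ← hR, hRins, Finset.card_insert_of_notMem hvN] at h1
      have h2 : dg G U v = N.card := by
        unfold dg
        rw [hN]
      omega
    have hdgN : (dg G U v : ℤ) = N.card := by
      unfold dg
      rw [hN]
    have hzz : (zz G U v : ℤ) = ∑ u ∈ N, ∑ y ∈ U, ff G u y := by
      unfold zz
      push_cast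
      rw [← hN]
      apply Finset.sum_congr rfl
      intro u _
      exact dg_eq G U u
    -- sum over R x R
    have hRR : ∑ x ∈ R, ∑ y ∈ R, ff G x y = 2 * (dg G U v : ℤ) := by
      rw [hRsum]
      have e0 : ff G v v = 0 := by unfold ff; rw [if_neg (hnot v)]
      have e1 : ∑ y ∈ R, ff G v y = N.card := by
        rw [hRsum, e0, zero_add]
        have : ∀ y ∈ N, ff G v y = 1 := by
          intro y hy
          rw [hN, Finset.mem_filter] at hy
          unfold ff
          rw [if_pos hy.2]
        rw [Finset.sum_congr rfl this]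
        simp
      have e2 : ∑ x ∈ N, ∑ y ∈ R, ff G x y = N.card := by
        have : ∀ x ∈ N, ∑ y ∈ R, ff G x y = 1 := by
          intro x hx
          rw [hRsum]
          have hx' := hx
          rw [hN, Finset.mem_filter] at hx'
          have e3 : ff G x v = 1 := by
            unfold ff
            rw [if_pos hx'.2.symm]
          have e4 : ∑ y ∈ N, ff G x y = 0 := by
            apply Finset.sum_eq_zero
            intro y hy
            unfold ff
            rw [if_neg (hindN x hx y hy)]
          rw [e3, e4, add_zero]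
        rw [Finset.sum_congr rfl this]
        simp
      rw [e1, e2, hdgN]
      ring
    have hRU : ∑ x ∈ R, ∑ y ∈ U, ff G x y = (dg G U v : ℤ) + zz G U v := by
      rw [hRsum, ← dg_eq, hzz]
    have hRrem : ∑ x ∈ R, ∑ y ∈ rem G U v, ff G x y
        = (dg G U v : ℤ) + zz G U v - 2 * (dg G U v : ℤ) := by
      have : ∑ x ∈ R, ∑ y ∈ U, ff G x y
          = ∑ x ∈ R, ∑ y ∈ R, ff G x y + ∑ x ∈ R, ∑ y ∈ rem G U v, ff G x y := by
        rw [← Finset.sum_add_distrib]
        apply Finset.sum_congr rfl
        intro x _
        exact hsplit _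
      rw [hRU, hRR] at this
      linarith
    have hremR : ∑ x ∈ rem G U v, ∑ y ∈ R, ff G x y
        = ∑ x ∈ R, ∑ y ∈ rem G U v, ff G x y := by
      rw [Finset.sum_comm]
      apply Finset.sum_congr rfl
      intro x _
      apply Finset.sum_congr rfl
      intro y _
      exact ff_symm G y x
    have harcs : (arcs G U : ℤ) = arcs G (rem G U v) + 2 * (zz G U v : ℤ) := by
      rw [arcs_eq, arcs_eq, hsplit, hRU]
      have : ∑ x ∈ rem G U v, ∑ y ∈ U, ff G x y
          = ∑ x ∈ rem G U v, ∑ y ∈ R, ff G x y
            + ∑ x ∈ rem G U v, ∑ y ∈ rem G U v, ff G x y := by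
        rw [← Finset.sum_add_distrib]
        apply Finset.sum_congr rfl
        intro x _
        exact hsplit _
      rw [this, hremR, hRrem]
      ring
    unfold sl
    have hc : (U.card : ℤ) = (rem G U v).card + dg G U v + 1 := by exact_mod_cast hcard
    have ha : ((a - 1 : ℕ) : ℤ) = (a : ℤ) - 1 := by
      rw [Nat.cast_sub h1a]; simp
    rw [ha, harcs, hc]
    ring

end Pool.Agent.W130.TD2REM
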